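import Pool.Agent.Lib.MP_16fe43_al.K1Exact
import Pool.Agent.Lib.MP_16fe43_al.Inj

/-!
# Theorem W, the integral step: Lemma P (helper85's note Z85.md, section 5)

`R → S` is a surjective ring homomorphism with kernel `p R` (`p` a natural number). For matrices
`A : α × α`, `B : α × β`, `C : β × α`, `E : β × β` over `R` put
`Θ = [A, B; p C, E]`, `Θ' = [A, p B; C, E]`. If both are invertible and the class of `A` over `S` is the
image of an element of `K₁(R)` plus the class of an integer, then `[Θ] = [Θ']` in `K₁(R)`.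
-/

set_option autoImplicit false

universe u v w

open Matrix

namespace Pool.Agent.Lib.WHZ

open Pool.Agent.Lib.MP_16fe43_al Pool.Agent.Lib.CutK1

section Core

variable {R : Type u} [Ring R] {α β : Type v} [Fintype α] [DecidableEq α] [Fintype β]
  [DecidableEq β]

/-- Schur complement of the lower right block `1` -/
theorem schur_right {a : Matrix α α R} {b : Matrix α β R} {c : Matrix β α R}
    (h : IsUnit (a - b * c)) :
    IsUnit (fromBlocks a b c 1) ∧ cm (fromBlocks a b c 1) = cm (a - b * c) := by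
  have e : fromBlocks a b c 1 =
      fromBlocks 1 b 0 1 * fromBlocks (a - b * c) 0 0 1 * fromBlocks 1 0 c 1 := by
    simp [fromBlocks_multiply]
  have h1 : IsUnit (fromBlocks 1 b 0 1 : Matrix (α ⊕ β) (α ⊕ β) R) :=
    isUnit_fromBlocks_upper b isUnit_one isUnit_one
  have h2 : IsUnit (fromBlocks 1 0 c 1 : Matrix (α ⊕ β) (α ⊕ β) R) :=
    isUnit_fromBlocks_lower c isUnit_one isUnit_one
  have h3 : IsUnit (fromBlocks (a - b * c) 0 0 (1 : Matrix β β R)) :=
    isUnit_fromBlocks_upper 0 h isUnit_one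
  refine ⟨?_, ?_⟩
  · rw [e]
    exact (h1.mul h3).mul h2
  · rw [e, cm_mul (h1.mul h3) h2, cm_mul h1 h3, cm_fromBlocks_upper b isUnit_one isUnit_one,
      cm_fromBlocks_lower c isUnit_one isUnit_one, cm_fromBlocks_diag h isUnit_one, cm_one, cm_one]
    simp

/-- Schur complement of the upper left block `1` -/
theorem schur_left {b : Matrix α β R} {c : Matrix β α R} {d : Matrix β β R}
    (h : IsUnit (d - c * b)) :
    IsUnit (fromBlocks 1 b c d) ∧ cm (fromBlocks 1 b c d) = cm (d - c * b) := by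
  have e : fromBlocks 1 b c d =
      fromBlocks 1 0 c 1 * fromBlocks 1 0 0 (d - c * b) * fromBlocks 1 b 0 1 := by
    simp [fromBlocks_multiply]
  have h1 : IsUnit (fromBlocks 1 b 0 1 : Matrix (α ⊕ β) (α ⊕ β) R) :=
    isUnit_fromBlocks_upper b isUnit_one isUnit_one
  have h2 : IsUnit (fromBlocks 1 0 c 1 : Matrix (α ⊕ β) (α ⊕ β) R) :=
    isUnit_fromBlocks_lower c isUnit_one isUnit_one
  have h3 : IsUnit (fromBlocks (1 : Matrix α α R) 0 0 (d - c * b)) :=
    isUnit_fromBlocks_upper 0 isUnit_one h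
  refine ⟨?_, ?_⟩
  · rw [e]
    exact (h2.mul h3).mul h1
  · rw [e, cm_mul (h2.mul h3) h1, cm_mul h2 h3, cm_fromBlocks_upper b isUnit_one isUnit_one,
      cm_fromBlocks_lower c isUnit_one isUnit_one, cm_fromBlocks_diag isUnit_one h, cm_one, cm_one]
    simp

/-- Lemma P for `A = 1 + p X` -/
theorem lemmaP_core (p : ℕ) (X : Matrix α α R) (B : Matrix α β R) (C : Matrix β α R)
    (E : Matrix β β R) (h : IsUnit (fromBlocks (1 + p • X) B (p • C) E))
    (h' : IsUnit (fromBlocks (1 + p • X) (p • B) C E)) :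
    cm (fromBlocks (1 + p • X) B (p • C) E) = cm (fromBlocks (1 + p • X) (p • B) C E) := by
  -- the common matrix
  set M : Matrix (β ⊕ α) (β ⊕ α) R :=
    fromBlocks (E - p • (C * B)) (p • (C * X)) (-(p • B)) (1 + p • X) with hM
  -- `Θ'` and `M`
  have hL : IsUnit (fromBlocks 1 0 (-C) 1 : Matrix (α ⊕ β) (α ⊕ β) R) :=
    isUnit_fromBlocks_lower _ isUnit_one isUnit_one
  have hD : (fromBlocks 1 0 0 (-1) : Matrix (α ⊕ β) (α ⊕ β) R) * fromBlocks 1 0 0 (-1) = 1 := by
    simp [fromBlocks_multiply, fromBlocks_one]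
  have e1 : Matrix.reindex (Equiv.sumComm β α) (Equiv.sumComm β α) M =
      fromBlocks 1 0 0 (-1) * (fromBlocks 1 0 (-C) 1 * fromBlocks (1 + p • X) (p • B) C E) *
        fromBlocks 1 0 0 (-1) := by
    have e0 : Matrix.reindex (Equiv.sumComm β α) (Equiv.sumComm β α) M =
        fromBlocks (1 + p • X) (-(p • B)) (p • (C * X)) (E - p • (C * B)) := by
      ext i j
      rcases i with i | i <;> rcases j with j | j <;> rfl
    rw [e0]
    rw [fromBlocks_multiply, fromBlocks_multiply, fromBlocks_multiply, fromBlocks_inj]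
    refine ⟨by simp [-nsmul_eq_mul], by simp [-nsmul_eq_mul], ?_, ?_⟩
    · simp [-nsmul_eq_mul, Matrix.mul_add]
    · simp [-nsmul_eq_mul, sub_eq_add_neg, add_comm]
  have hM1 : IsUnit (Matrix.reindex (Equiv.sumComm β α) (Equiv.sumComm β α) M) := by
    have hD' : IsUnit (fromBlocks 1 0 0 (-1) : Matrix (α ⊕ β) (α ⊕ β) R) :=
      ⟨⟨_, _, hD, hD⟩, rfl⟩
    rw [e1]
    exact (hD'.mul (hL.mul h')).mul hD'
  have hM2 : IsUnit M := by
    have h1 := isUnit_reindex (Equiv.sumComm α β) hM1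
    have h2 : Matrix.reindex (Equiv.sumComm α β) (Equiv.sumComm α β)
        (Matrix.reindex (Equiv.sumComm β α) (Equiv.sumComm β α) M) = M := by
      ext i j
      rcases i with i | i <;> rcases j with j | j <;> rfl
    rwa [h2] at h1
  have e2 : cm M = cm (fromBlocks (1 + p • X) (p • B) C E) := by
    rw [← cm_reindex (Equiv.sumComm β α) hM2, e1, cm_conj hD hD (hL.mul h'), cm_mul hL h',
      cm_fromBlocks_lower _ isUnit_one isUnit_one, cm_one, cm_one]
    simp
  -- `Θ` and `M`
  -- the matrix with index `(α ⊕ β) ⊕ α`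
  set b' : Matrix (α ⊕ β) α R := Matrix.of fun i j => Sum.elim (fun i => -X i j) (fun _ => 0) i
    with hb'
  set c' : Matrix α (α ⊕ β) R := Matrix.of fun i j =>
    Sum.elim (fun j => (p • (1 : Matrix α α R)) i j) (fun _ => 0) j with hc'
  have e4 : fromBlocks 1 B (p • C) E - b' * c' = fromBlocks (1 + p • X) B (p • C) E := by
    ext i j
    rw [Matrix.sub_apply, Matrix.mul_apply]
    rcases i with i | i <;> rcases j with j | j
    · simp [hb', hc', Matrix.one_apply, -nsmul_eq_mul]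
      rw [nsmul_eq_mul, Nat.cast_comm]
    · simp [hb', hc', -nsmul_eq_mul]
    · simp [hb', hc', -nsmul_eq_mul]
    · simp [hb', hc', -nsmul_eq_mul]
  obtain ⟨hW, hW'⟩ := schur_right (a := fromBlocks 1 B (p • C) E) (b := b') (c := c')
    (by rw [e4]; exact h)
  rw [e4] at hW'
  -- reindex
  set b : Matrix α (β ⊕ α) R := Matrix.of fun i j => Sum.elim (fun j => B i j) (fun j => -X i j) j
    with hb
  set c : Matrix (β ⊕ α) α R := Matrix.of fun i j =>
    Sum.elim (fun i => (p • C) i j) (fun i => (p • (1 : Matrix α α R)) i j) i with hc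
  have e5 : Matrix.reindex (Equiv.sumAssoc α β α) (Equiv.sumAssoc α β α)
      (fromBlocks (fromBlocks 1 B (p • C) E) b' c' 1) =
      fromBlocks 1 b c (fromBlocks E 0 0 1) := by
    ext i j
    rcases i with i | i | i <;> rcases j with j | j | j <;> rfl
  have e6 : fromBlocks E 0 0 1 - c * b = M := by
    ext i j
    rw [Matrix.sub_apply, Matrix.mul_apply]
    rcases i with i | i <;> rcases j with j | j
    · simp [hb, hc, hM, Matrix.mul_apply, Finset.smul_sum, -nsmul_eq_mul]
    · simp [hb, hc, hM, Matrix.mul_apply, Finset.smul_sum, -nsmul_eq_mul]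
    · simp [hb, hc, hM, Matrix.one_apply, -nsmul_eq_mul]
      rw [nsmul_eq_mul]
    · simp [hb, hc, hM, Matrix.one_apply, -nsmul_eq_mul]
      rw [nsmul_eq_mul]
  rw [← hW', ← cm_reindex (Equiv.sumAssoc α β α) hW, e5,
    (schur_left (b := b) (c := c) (d := fromBlocks E 0 0 1) (by rw [e6]; exact hM2)).2, e6, e2]

/-- Lemma P if `A` is invertible modulo `p` by an invertible matrix -/
theorem lemmaP_of_lift (p : ℕ) {A W X : Matrix α α R} (B : Matrix α β R) (C : Matrix β α R)
    (E : Matrix β β R) (hW : IsUnit W) (hX : W * A = 1 + p • X)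
    (h : IsUnit (fromBlocks A B (p • C) E)) (h' : IsUnit (fromBlocks A (p • B) C E)) :
    cm (fromBlocks A B (p • C) E) = cm (fromBlocks A (p • B) C E) := by
  have hU : IsUnit (fromBlocks W 0 0 1 : Matrix (α ⊕ β) (α ⊕ β) R) :=
    isUnit_fromBlocks_upper 0 hW isUnit_one
  have e1 : fromBlocks W 0 0 1 * fromBlocks A B (p • C) E =
      fromBlocks (1 + p • X) (W * B) (p • C) E := by
    rw [fromBlocks_multiply, ← hX]
    simp
  have e2 : fromBlocks W 0 0 1 * fromBlocks A (p • B) C E =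
      fromBlocks (1 + p • X) (p • (W * B)) C E := by
    rw [fromBlocks_multiply, ← hX, Matrix.mul_smul]
    simp
  have h1 := cm_mul hU h
  have h2 := cm_mul hU h'
  have h3 := lemmaP_core p X (W * B) C E (by rw [← e1]; exact hU.mul h)
    (by rw [← e2]; exact hU.mul h')
  rw [e1] at h1
  rw [e2] at h2
  rw [h1, h2] at h3
  exact add_left_cancel h3

/-- the sum of two `2 × 2` block matrices -/
theorem cm_add_block {κ l : Type v} [Fintype κ] [DecidableEq κ] [Fintype l] [DecidableEq l]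
    {A : Matrix α α R} {B : Matrix α β R} {C : Matrix β α R} {E : Matrix β β R}
    {A' : Matrix κ κ R} {B' : Matrix κ l R} {C' : Matrix l κ R} {E' : Matrix l l R}
    (h : IsUnit (fromBlocks A B C E)) (h' : IsUnit (fromBlocks A' B' C' E')) :
    IsUnit (fromBlocks (fromBlocks A 0 0 A') (fromBlocks B 0 0 B') (fromBlocks C 0 0 C')
      (fromBlocks E 0 0 E')) ∧
    cm (fromBlocks (fromBlocks A 0 0 A') (fromBlocks B 0 0 B') (fromBlocks C 0 0 C')
      (fromBlocks E 0 0 E')) = cm (fromBlocks A B C E) + cm (fromBlocks A' B' C' E') := by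
  have e : fromBlocks (fromBlocks A 0 0 A') (fromBlocks B 0 0 B') (fromBlocks C 0 0 C')
      (fromBlocks E 0 0 E') = Matrix.reindex (Equiv.sumSumSumComm α β κ l)
        (Equiv.sumSumSumComm α β κ l)
        (fromBlocks (fromBlocks A B C E) 0 0 (fromBlocks A' B' C' E')) := by
    ext i j
    rcases i with (i | i) | (i | i) <;> rcases j with (j | j) | (j | j) <;> rfl
  have h1 : IsUnit (fromBlocks (fromBlocks A B C E) 0 0 (fromBlocks A' B' C' E')) :=
    isUnit_fromBlocks_upper 0 h h'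
  rw [e]
  exact ⟨isUnit_reindex _ h1, by rw [cm_reindex _ h1, cm_fromBlocks_diag h h']⟩

end Core

section Lift

variable {R : Type u} {S : Type w} [Ring R] [Ring S] {π : R →+* S}

/-- a matrix with trivial class over `S` lifts, after stabilisation, to a matrix with trivial class -/
theorem exists_W (hπ : Function.Surjective π) {ι : Type v} [Fintype ι] [DecidableEq ι]
    {D : Matrix ι ι S} (hD : IsUnit D) (h0 : cm D = 0) :
    ∃ (n : ℕ) (W : Matrix (ι ⊕ Fin n) (ι ⊕ Fin n) R), IsUnit W ∧ cm W = 0 ∧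
      W.map π = fromBlocks D 0 0 1 := by
  obtain ⟨D, rfl⟩ := hD
  rw [cm_val] at h0
  set e := Fintype.equivFin ι with he
  have h1 : K1.gen (rix e D) = 0 := by rw [← cl_gen, cl_rix, h0]
  obtain ⟨m, hm, h2⟩ := exists_commutator _ h1
  obtain ⟨V, hV, hV'⟩ := commutator_le_liftSub hπ (Fin m) h2
  -- the equivalences
  let g : Fin (Fintype.card ι) ⊕ Fin (m - Fintype.card ι) ≃ Fin m :=
    finSumFinEquiv.trans (finCongr (Nat.add_sub_cancel' hm))
  let F : (ι ⊕ Fin (m - Fintype.card ι)) ⊕ Fin m ≃ Fin m ⊕ Fin m :=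
    Equiv.sumCongr ((Equiv.sumCongr e (Equiv.refl _)).trans g) (Equiv.refl _)
  let f : Fin m ⊕ Fin m ≃ ι ⊕ Fin ((m - Fintype.card ι) + m) :=
    (F.symm.trans (Equiv.sumAssoc ι (Fin (m - Fintype.card ι)) (Fin m))).trans
      (Equiv.sumCongr (Equiv.refl ι) finSumFinEquiv)
  refine ⟨(m - Fintype.card ι) + m, (rix f V).val, Units.isUnit _, by rw [cm_val, cl_rix, hV], ?_⟩
  have h3 : mapU π (rix f V) = rix f (mapU π V) := Units.ext rfl
  have h4 : (rix f V).val.map π = (mapU π (rix f V)).val := rfl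
  rw [h4, h3, hV']
  have h6 : ∀ x y : (ι ⊕ Fin (m - Fintype.card ι)) ⊕ Fin m,
      (dsum (stb hm (rix e D)) (1 : (Matrix (Fin m) (Fin m) S)ˣ)).val (F x) (F y) =
      fromBlocks (fromBlocks D.val 0 0 1) 0 0 1 x y := by
    intro x y
    have h7 : ∀ x y : ι ⊕ Fin (m - Fintype.card ι),
        (stb hm (rix e D)).val (g (Sum.map e id x)) (g (Sum.map e id y)) =
          fromBlocks D.val 0 0 1 x y := by
      intro x y
      show (dsum (rix e D) (1 : (Matrix (Fin (m - Fintype.card ι)) (Fin (m - Fintype.card ι))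
        S)ˣ)).val (g.symm (g (Sum.map e id x))) (g.symm (g (Sum.map e id y))) = _
      rw [Equiv.symm_apply_apply, Equiv.symm_apply_apply]
      rcases x with x | x <;> rcases y with y | y
      · show D.val (e.symm (e x)) (e.symm (e y)) = D.val x y
        rw [Equiv.symm_apply_apply, Equiv.symm_apply_apply]
      · rfl
      · rfl
      · rfl
    rcases x with x | x <;> rcases y with y | y
    · exact h7 x y
    · rfl
    · rfl
    · rfl
  have h8 : ∀ x y : (ι ⊕ Fin (m - Fintype.card ι)) ⊕ Fin m,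
      (fromBlocks D.val 0 0 1 : Matrix (ι ⊕ Fin ((m - Fintype.card ι) + m)) _ S) (f (F x)) (f (F y)) =
        (fromBlocks (fromBlocks D.val 0 0 1) 0 0 1 :
          Matrix ((ι ⊕ Fin (m - Fintype.card ι)) ⊕ Fin m) _ S) x y := by
    intro x y
    have h9 : ∀ x, f (F x) = (Equiv.sumCongr (Equiv.refl ι) finSumFinEquiv)
        (Equiv.sumAssoc ι (Fin (m - Fintype.card ι)) (Fin m) x) := by
      intro x
      show (Equiv.sumCongr (Equiv.refl ι) finSumFinEquiv)
        (Equiv.sumAssoc ι (Fin (m - Fintype.card ι)) (Fin m) (F.symm (F x))) = _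
      rw [Equiv.symm_apply_apply]
    rw [h9, h9]
    rcases x with (x | x) | x <;> rcases y with (y | y) | y
    · rfl
    · rfl
    · rfl
    · rfl
    · simp [Matrix.one_apply]
    · have := x.2
      simp [Matrix.one_apply, Fin.ext_iff]
      omega
    · rfl
    · have := y.2
      simp [Matrix.one_apply, Fin.ext_iff]
      omega
    · simp [Matrix.one_apply]
  ext x y
  obtain ⟨x, rfl⟩ := (F.trans f).surjective x
  obtain ⟨y, rfl⟩ := (F.trans f).surjective y
  show (dsum (stb hm (rix e D)) (1 : (Matrix (Fin m) (Fin m) S)ˣ)).val (f.symm (f (F x)))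
      (f.symm (f (F y))) = fromBlocks D.val 0 0 1 (f (F x)) (f (F y))
  rw [Equiv.symm_apply_apply, Equiv.symm_apply_apply, h6, h8]

variable {α β : Type} [Fintype α] [DecidableEq α] [Fintype β] [DecidableEq β]

theorem map_psmul {p : ℕ} (hp : π (p : R) = 0) {ι κ : Type v} (C : Matrix ι κ R) :
    (p • C).map π = 0 := by
  ext i j
  simp [hp]

/-- `A` is invertible modulo `p` -/
theorem isUnit_mod {p : ℕ} (hp : π (p : R) = 0) {A : Matrix α α R} {B : Matrix α β R}
    {C : Matrix β α R} {E : Matrix β β R} (h : IsUnit (fromBlocks A B (p • C) E))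
    (h' : IsUnit (fromBlocks A (p • B) C E)) : IsUnit (A.map π) := by
  have h1 := isUnit_map π h
  have h2 := isUnit_map π h'
  have e1 : (fromBlocks A B (p • C) E).map π =
      fromBlocks (A.map π) (B.map π) 0 (E.map π) := by
    rw [fromBlocks_map, map_psmul hp]
  have e2 : (fromBlocks A (p • B) C E).map π =
      fromBlocks (A.map π) 0 (C.map π) (E.map π) := by
    rw [fromBlocks_map, map_psmul hp]
  rw [e1] at h1
  rw [e2] at h2
  obtain ⟨V, hV⟩ := h1.exists_left_inv
  obtain ⟨W, hW⟩ := h2.exists_right_inv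
  rw [← fromBlocks_toBlocks V, fromBlocks_multiply, ← fromBlocks_one, fromBlocks_inj] at hV
  rw [← fromBlocks_toBlocks W, fromBlocks_multiply, ← fromBlocks_one, fromBlocks_inj] at hW
  have h3 : V.toBlocks₁₁ * A.map π = 1 := by
    have := hV.1
    rwa [Matrix.mul_zero, add_zero] at this
  have h4 : A.map π * W.toBlocks₁₁ = 1 := by
    have := hW.1
    rwa [Matrix.zero_mul, add_zero] at this
  have h5 : V.toBlocks₁₁ = W.toBlocks₁₁ := by
    calc V.toBlocks₁₁ = V.toBlocks₁₁ * (A.map π * W.toBlocks₁₁) := by rw [h4, Matrix.mul_one]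
      _ = W.toBlocks₁₁ := by rw [← Matrix.mul_assoc, h3, Matrix.one_mul]
  exact ⟨⟨A.map π, W.toBlocks₁₁, h4, by rw [← h5, h3]⟩, rfl⟩

/-- Lemma P if the class of `A` over `S` is trivial -/
theorem lemmaP_zero (hπ : Function.Surjective π) (p : ℕ) (hp : π (p : R) = 0)
    (hker : ∀ x, π x = 0 → ∃ y, x = p • y) {A : Matrix α α R} {B : Matrix α β R}
    {C : Matrix β α R} {E : Matrix β β R} (h : IsUnit (fromBlocks A B (p • C) E))
    (h' : IsUnit (fromBlocks A (p • B) C E)) (h0 : cm (A.map π) = 0) :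
    cm (fromBlocks A B (p • C) E) = cm (fromBlocks A (p • B) C E) := by
  obtain ⟨n, W, hW, hW0, hWπ⟩ := exists_W hπ (isUnit_mod hp h h') h0
  -- the inverse of `W` is a left inverse of `A ⊕ 1` modulo `p`
  obtain ⟨W, rfl⟩ := hW
  have h1 : (W.inv * fromBlocks A 0 0 1).map π = 1 := by
    rw [Matrix.map_mul, fromBlocks_map]
    simp only [Matrix.map_zero _ (map_zero π), Matrix.map_one _ (map_zero π) (map_one π)]
    rw [← hWπ, ← Matrix.map_mul, W.inv_val, Matrix.map_one _ (map_zero π) (map_one π)]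
  have h2 : ∀ i j : α ⊕ Fin n, ∃ y : R,
      (W.inv * (fromBlocks A 0 0 1 : Matrix (α ⊕ Fin n) (α ⊕ Fin n) R) - 1) i j = p • y := by
    intro i j
    apply hker
    have h3 := congrFun (congrFun h1 i) j
    rw [Matrix.map_apply] at h3
    rw [Matrix.sub_apply, map_sub, h3]
    by_cases hij : i = j
    · subst hij
      rw [Matrix.one_apply_eq, Matrix.one_apply_eq, map_one, sub_self]
    · rw [Matrix.one_apply_ne hij, Matrix.one_apply_ne hij, map_zero, sub_self]
  choose X hX using h2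
  have h3 : W.inv * fromBlocks A 0 0 1 = 1 + p • Matrix.of X := by
    ext i j
    have := hX i j
    rw [Matrix.sub_apply, sub_eq_iff_eq_add'] at this
    rw [this]
    rfl
  -- stabilise
  have h4 : IsUnit (fromBlocks (1 : Matrix (Fin n) (Fin n) R) (0 : Matrix (Fin n) Empty R) 0 1) :=
    isUnit_fromBlocks_upper 0 isUnit_one isUnit_one
  obtain ⟨h5, h6⟩ := cm_add_block h h4
  obtain ⟨h7, h8⟩ := cm_add_block h' h4
  have e1 : (fromBlocks (p • C) 0 0 0 : Matrix (β ⊕ Empty) (α ⊕ Fin n) R) =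
      p • fromBlocks C 0 0 0 := by
    rw [fromBlocks_smul]
    simp
  have e2 : (fromBlocks (p • B) 0 0 0 : Matrix (α ⊕ Fin n) (β ⊕ Empty) R) =
      p • fromBlocks B 0 0 0 := by
    rw [fromBlocks_smul]
    simp
  rw [e1] at h5 h6
  rw [e2] at h7 h8
  have h9 := lemmaP_of_lift p (A := fromBlocks A 0 0 1) (W := W.inv) (X := Matrix.of X)
    (fromBlocks B 0 0 0) (fromBlocks C 0 0 0) (fromBlocks E 0 0 1) (W⁻¹).isUnit h3 h5 h7
  rw [h6, h8] at h9
  exact add_right_cancel h9

/-- Lemma P if the class of `A` over `S` is the image of an element of `K₁(R)` -/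
theorem lemmaP_range (hπ : Function.Surjective π) (p : ℕ) (hp : π (p : R) = 0)
    (hker : ∀ x, π x = 0 → ∃ y, x = p • y) {A : Matrix α α R} {B : Matrix α β R}
    {C : Matrix β α R} {E : Matrix β β R} (h : IsUnit (fromBlocks A B (p • C) E))
    (h' : IsUnit (fromBlocks A (p • B) C E)) (hA : cm (A.map π) ∈ (K1.map π).range) :
    cm (fromBlocks A B (p • C) E) = cm (fromBlocks A (p • B) C E) := by
  obtain ⟨y, hy⟩ := hA
  obtain ⟨n, Y, rfl⟩ := K1.exists_gen y
  have hV : IsUnit (Y⁻¹).val := (Y⁻¹).isUnit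
  have h4 : IsUnit (fromBlocks (Y⁻¹).val (0 : Matrix (Fin n) Empty R) 0 1) :=
    isUnit_fromBlocks_upper 0 hV isUnit_one
  obtain ⟨h5, h6⟩ := cm_add_block h h4
  obtain ⟨h7, h8⟩ := cm_add_block h' h4
  have e1 : (fromBlocks (p • C) 0 0 0 : Matrix (β ⊕ Empty) (α ⊕ Fin n) R) =
      p • fromBlocks C 0 0 0 := by
    rw [fromBlocks_smul]
    simp
  have e2 : (fromBlocks (p • B) 0 0 0 : Matrix (α ⊕ Fin n) (β ⊕ Empty) R) =
      p • fromBlocks B 0 0 0 := by
    rw [fromBlocks_smul]
    simp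
  rw [e1] at h5 h6
  rw [e2] at h7 h8
  have h9 := lemmaP_zero hπ p hp hker h5 h7 (by
    rw [fromBlocks_map, Matrix.map_zero _ (map_zero π), Matrix.map_zero _ (map_zero π),
      cm_fromBlocks_diag (isUnit_mod hp h h') (isUnit_map π hV), ← hy]
    have h10 : cm ((Y⁻¹).val.map π) = -K1.map π (K1.gen Y) := by
      rw [← K1.map_cm π hV, cm_val, cl_gen, K1.gen_inv, map_neg]
    rw [h10, add_neg_cancel])
  rw [h6, h8] at h9
  exact add_right_cancel h9

end Lift

section Main

variable {R R₀ : Type u} {S S₀ : Type w} [Ring R] [Ring R₀] [Ring S] [Ring S₀] {π : R →+* S}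
  {π₀ : R₀ →+* S₀} {ι : R₀ →+* R} {ε : R →+* R₀} {ιS : S₀ →+* S} {εS : S →+* S₀}

variable {α β : Type} [Fintype α] [DecidableEq α] [Fintype β] [DecidableEq β]

/-- the inverses of `[A, B; p C, E]` and `[A, p B; C, E]` are of the same form -/
theorem exists_inv (p : ℕ) (hreg : ∀ x : R, p • x = 0 → x = 0) {A : Matrix α α R}
    {B : Matrix α β R} {C : Matrix β α R} {E : Matrix β β R}
    (h : IsUnit (fromBlocks A B (p • C) E)) (h' : IsUnit (fromBlocks A (p • B) C E)) :
    ∃ (A' : Matrix α α R) (B' : Matrix α β R) (C' : Matrix β α R) (E' : Matrix β β R),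
      fromBlocks A B (p • C) E * fromBlocks A' B' (p • C') E' = 1 ∧
      fromBlocks A' B' (p • C') E' * fromBlocks A B (p • C) E = 1 ∧
      fromBlocks A (p • B) C E * fromBlocks A' (p • B') C' E' = 1 ∧
      fromBlocks A' (p • B') C' E' * fromBlocks A (p • B) C E = 1 := by
  obtain ⟨T, hT⟩ := h
  obtain ⟨T', hT'⟩ := h'
  -- `D T' = T D`
  have hD : (fromBlocks 1 0 0 (p • 1) : Matrix (α ⊕ β) (α ⊕ β) R) * T'.val =
      T.val * fromBlocks 1 0 0 (p • 1) := by
    rw [hT, hT', fromBlocks_multiply, fromBlocks_multiply, fromBlocks_inj]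
    refine ⟨by simp, ?_, ?_, ?_⟩
    · rw [Matrix.one_mul, Matrix.zero_mul, add_zero, Matrix.mul_zero, zero_add, Matrix.mul_smul,
        Matrix.mul_one]
    · rw [Matrix.zero_mul, zero_add, Matrix.smul_mul, Matrix.one_mul, Matrix.mul_one,
        Matrix.mul_zero, add_zero]
    · rw [Matrix.zero_mul, zero_add, Matrix.smul_mul, Matrix.one_mul, Matrix.mul_zero, zero_add,
        Matrix.mul_smul, Matrix.mul_one]
  have hD' : T.inv * fromBlocks 1 0 0 (p • 1) = fromBlocks 1 0 0 (p • 1) * T'.inv := by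
    calc T.inv * fromBlocks 1 0 0 (p • 1)
        = T.inv * (fromBlocks 1 0 0 (p • 1) * T'.val) * T'.inv := by
          rw [Matrix.mul_assoc, Matrix.mul_assoc, T'.val_inv, Matrix.mul_one]
      _ = fromBlocks 1 0 0 (p • 1) * T'.inv := by
          rw [hD, ← Matrix.mul_assoc, T.inv_val, Matrix.one_mul]
  rw [← fromBlocks_toBlocks T.inv, ← fromBlocks_toBlocks T'.inv, fromBlocks_multiply,
    fromBlocks_multiply, fromBlocks_inj] at hD'
  simp only [Matrix.mul_one, Matrix.one_mul, Matrix.mul_zero, Matrix.zero_mul, add_zero,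
    zero_add, Matrix.mul_smul, Matrix.smul_mul] at hD'
  obtain ⟨e1, e2, e3, e4⟩ := hD'
  have e5 : T.inv.toBlocks₂₂ = T'.inv.toBlocks₂₂ := by
    ext i j
    have h1 := congrFun (congrFun e4 i) j
    rw [Matrix.smul_apply, Matrix.smul_apply] at h1
    exact sub_eq_zero.mp (hreg _ (by rw [smul_sub, h1, sub_self]))
  have e6 : T.inv = fromBlocks T.inv.toBlocks₁₁ T.inv.toBlocks₁₂ (p • T'.inv.toBlocks₂₁)
      T.inv.toBlocks₂₂ := by
    rw [← e3]
    exact (fromBlocks_toBlocks T.inv).symm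
  have e7 : T'.inv = fromBlocks T.inv.toBlocks₁₁ (p • T.inv.toBlocks₁₂) T'.inv.toBlocks₂₁
      T.inv.toBlocks₂₂ := by
    rw [e1, e2, e5]
    exact (fromBlocks_toBlocks T'.inv).symm
  refine ⟨T.inv.toBlocks₁₁, T.inv.toBlocks₁₂, T'.inv.toBlocks₂₁, T.inv.toBlocks₂₂, ?_, ?_, ?_, ?_⟩
  · rw [← e6, ← hT, T.val_inv]
  · rw [← e6, ← hT, T.inv_val]
  · rw [← e7, ← hT', T'.val_inv]
  · rw [← e7, ← hT', T'.inv_val]

/-- **Lemma P**: if the class of `A` over `S` is the sum of the image of an element of `K₁(R)` and of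
the image of an element of `K₁(S₀)`, then `[Θ] - [Θ']` is the image of an element of `K₁(R₀)` -/
theorem lemmaP (hπ : Function.Surjective π) (p : ℕ) (hp : π (p : R) = 0)
    (hker : ∀ x, π x = 0 → ∃ y, x = p • y) (hreg : ∀ x : R, p • x = 0 → x = 0)
    (h1 : εS.comp π = π₀.comp ε) (h2 : π.comp ι = ιS.comp π₀) (h3 : εS.comp ιS = RingHom.id S₀)
    {A : Matrix α α R} {B : Matrix α β R} {C : Matrix β α R} {E : Matrix β β R}
    (h : IsUnit (fromBlocks A B (p • C) E)) (h' : IsUnit (fromBlocks A (p • B) C E))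
    (hA : cm (A.map π) ∈ (K1.map π).range ⊔ (K1.map ιS).range) :
    cm (fromBlocks A B (p • C) E) - cm (fromBlocks A (p • B) C E) ∈ (K1.map ι).range := by
  -- the retraction of a matrix
  have hmap : ∀ {γ δ : Type} (M : Matrix γ δ R), (p • M).map (ι.comp ε) = p • M.map (ι.comp ε) := by
    intro γ δ M
    ext i j
    simp [-nsmul_eq_mul]
  have g1 := isUnit_map (ι.comp ε) h
  have g2 := isUnit_map (ι.comp ε) h'
  have k1 : K1.map (ι.comp ε) (cm (fromBlocks A B (p • C) E)) ∈ (K1.map ι).range := by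
    rw [K1.map_comp]
    exact ⟨_, rfl⟩
  have k2 : K1.map (ι.comp ε) (cm (fromBlocks A (p • B) C E)) ∈ (K1.map ι).range := by
    rw [K1.map_comp]
    exact ⟨_, rfl⟩
  rw [K1.map_cm _ h] at k1
  rw [K1.map_cm _ h'] at k2
  rw [fromBlocks_map, hmap] at g1 g2 k1 k2
  obtain ⟨A', B', C', E', e1, e2, e3, e4⟩ := exists_inv p hreg g1 g2
  have u1 : IsUnit (fromBlocks A' B' (p • C') E') := ⟨⟨_, _, e2, e1⟩, rfl⟩
  have u2 : IsUnit (fromBlocks A' (p • B') C' E') := ⟨⟨_, _, e4, e3⟩, rfl⟩
  have c1 := cm_mul g1 u1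
  have c2 := cm_mul g2 u2
  rw [e1, cm_one] at c1
  rw [e3, cm_one] at c2
  obtain ⟨h5, h6⟩ := cm_add_block h u1
  obtain ⟨h7, h8⟩ := cm_add_block h' u2
  have f1 : (fromBlocks (p • C) 0 0 (p • C') : Matrix (β ⊕ β) (α ⊕ α) R) =
      p • fromBlocks C 0 0 C' := by
    rw [fromBlocks_smul]
    simp
  have f2 : (fromBlocks (p • B) 0 0 (p • B') : Matrix (α ⊕ α) (β ⊕ β) R) =
      p • fromBlocks B 0 0 B' := by
    rw [fromBlocks_smul]
    simp
  rw [f1] at h5 h6
  rw [f2] at h7 h8
  have h9 := lemmaP_range hπ p hp hker h5 h7 (by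
    rw [fromBlocks_map, Matrix.map_zero _ (map_zero π),
      cm_fromBlocks_diag (isUnit_mod hp h h') (isUnit_mod hp u1 u2)]
    -- the class of `A'` over `S` is minus the retraction of the class of `A` over `S`
    have m2 : cm (A'.map π) = -K1.map (ιS.comp εS) (cm (A.map π)) := by
      rw [K1.map_cm _ (isUnit_mod hp h h')]
      have m3 : (A.map π).map (ιS.comp εS) = (A.map (ι.comp ε)).map π := by
        ext i j
        have q1 := congrArg (fun f : R →+* S₀ => f (A i j)) h1
        have q2 := congrArg (fun f : R₀ →+* S => f (ε (A i j))) h2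
        simp only [RingHom.comp_apply, Matrix.map_apply] at q1 q2 ⊢
        rw [q1, q2]
      rw [m3]
      have m4 : (A.map (ι.comp ε)).map π * A'.map π = 1 := by
        have q := congrArg (fun M : Matrix (α ⊕ β) (α ⊕ β) R => M.map π) e1
        rw [Matrix.map_mul, fromBlocks_map, fromBlocks_map, map_psmul hp, map_psmul hp,
          fromBlocks_multiply, Matrix.map_one _ (map_zero π) (map_one π), ← fromBlocks_one,
          fromBlocks_inj] at q
        have := q.1
        rwa [Matrix.mul_zero, add_zero] at this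
      have m5 := cm_mul (isUnit_mod hp g1 g2) (isUnit_mod hp u1 u2)
      rw [m4, cm_one] at m5
      exact (neg_eq_of_add_eq_zero_right m5.symm).symm
    rw [m2]
    obtain ⟨y, hy, z, hz, hyz⟩ := AddSubgroup.mem_sup.mp hA
    obtain ⟨y', rfl⟩ := hy
    obtain ⟨z', rfl⟩ := hz
    rw [← hyz, map_add]
    have m6 : K1.map (ιS.comp εS) (K1.map ιS z') = K1.map ιS z' := by
      rw [← K1.map_comp, RingHom.comp_assoc, h3, RingHom.comp_id]
    have m7 : K1.map (ιS.comp εS) (K1.map π y') = K1.map π (K1.map (ι.comp ε) y') := by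
      rw [← K1.map_comp, ← K1.map_comp, RingHom.comp_assoc, h1, ← RingHom.comp_assoc, ← h2,
        RingHom.comp_assoc]
    rw [m6, m7]
    refine ⟨y' - K1.map (ι.comp ε) y', ?_⟩
    rw [map_sub]
    abel)
  rw [h6, h8] at h9
  have h10 : cm (fromBlocks A B (p • C) E) - cm (fromBlocks A (p • B) C E) =
      cm (fromBlocks (A.map (ι.comp ε)) (B.map (ι.comp ε)) (p • C.map (ι.comp ε))
        (E.map (ι.comp ε))) -
      cm (fromBlocks (A.map (ι.comp ε)) (p • B.map (ι.comp ε)) (C.map (ι.comp ε))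
        (E.map (ι.comp ε))) := by
    have c1' := neg_eq_of_add_eq_zero_right c1.symm
    have c2' := neg_eq_of_add_eq_zero_right c2.symm
    rw [← c1', ← c2'] at h9
    rw [sub_eq_sub_iff_add_eq_add]
    have := h9
    rw [← sub_eq_add_neg, ← sub_eq_add_neg, sub_eq_sub_iff_add_eq_add] at this
    rw [this, add_comm]
  rw [h10]
  exact AddSubgroup.sub_mem _ k1 k2

end Main

end Pool.Agent.Lib.WHZ
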